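import Pool.Agent.N859.LP.Family

/-!
# Places at which several cuspidal representations of `GL_2` are non-tempered

Let `π_i`, `i ∈ ι`, be unitary cuspidal automorphic representations of `GL_2` over a number field `K`, unramified
outside the finite set `S` of finite places, and such that the lifts `A² π_i` to `GL_3` and `A⁴ π_i` to `GL_5`
(`A^m = Sym^m ⊗ ω^{-m/2}`) are cuspidal and pairwise not isomorphic. For `n` of the `π_i`, which together are a
generic cuspidal representation of the group `GL_2 × ... × GL_2`, we show:

* the places at which all the `n` representations are non-tempered have upper Dirichlet density at most `1 / (34 n + 1)`;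
* for `θ > 1/10` the places at which at least `θ n` of them are non-tempered have upper density at most
  `153 / (153 + 50 n (10 θ - 1)²)`, so `O(1 / n)`;
* for an infinite family, for example for all Maass forms of level one, the places at which all of the `π_i` are
  non-tempered have density zero.

For `n = 1` the bound `1/35` is known (Kim, Shahidi); it also bounds the places at which all of `n` representations are
non-tempered. The theorem shows that the exceptional places of different representations cannot coincide too often.

The structure `FamilyGL2` lists what is used, all of it is known: unitarity; the standard `L`-functions of the lifts are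
analytic and not zero at `s = 1`, and the Rankin-Selberg `L`-functions of two of the lifts have a pole at `s = 1`, a
simple one, only if the two agree (Jacquet, Piatetski-Shapiro, Shalika; Gelbart, Jacquet, Kim, Shahidi).

Proof: at a non-tempered place the traces of `A² π_i` and `A⁴ π_i` exceed `3` and `5`, and the mean of the square of
the absolute value of `1 + ∑ (3 tr A² π_i + 5 tr A⁴ π_i)` is `1 + 34 n`.
-/

set_option autoImplicit false

namespace Pool.Agent.Results.MP_08cfa9_nt.SimultaneouslyNontempered

open NumberField IsDedekindDomain Pool.Agent.N859.LP
open Pool.Agent.N859.G4 (PL upperDensity)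

open scoped Classical in
/-- **Simultaneously non-tempered places.** -/
theorem result {K : Type*} [Field K] [NumberField K] {S : Finset (HeightOneSpectrum (𝓞 K))}
    {ι : Type*} {α : ι → PL S → Fin 2 → ℂ} (h : FamilyGL2 α) :
    (∀ s : Finset ι, upperDensity (fun v => ∀ i ∈ s, ¬ Tempered (α i v)) ≤ 1 / (34 * s.card + 1)) ∧
    (∀ s : Finset ι, s.Nonempty → ∀ θ : ℝ, 1 / 10 < θ →
      upperDensity (fun v => θ * s.card ≤ ({i ∈ s | ¬ Tempered (α i v)}.card : ℝ)) ≤
        153 / (153 + 50 * s.card * (10 * θ - 1) ^ 2)) ∧
    (Infinite ι → upperDensity (fun v => ∀ i, ¬ Tempered (α i v)) = 0) :=
  ⟨fun s => all_nontempered h s, fun _ hs _ hθ => many_nontempered h hs hθ, fun _ => infinite_family h⟩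

end Pool.Agent.Results.MP_08cfa9_nt.SimultaneouslyNontempered
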